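import Pool.Agent.H73.PHS.Stmts

/-!
# Board phs, row NDE: the extension is not degenerate
-/

set_option autoImplicit false

open Set Filter Topology

namespace Pool.PHS

theorem NDE_thm (h1 : DETStmt) (h2 : IDNStmt) (h3 : HFCStmt) (h4 : NDGStmt) : NDEStmt := by
  intro n hn D E K f F hH hf hF hEq O hO hOU hOne
  by_contra hcon
  have hz0 : ∀ z ∈ O, jac F z = 0 := fun z hz => by
    by_contra h
    exact hcon ⟨z, hz, h⟩
  obtain ⟨hop, -, hcn, -⟩ := h3 n hn D E K hH
  have h5 : EqOn (jac F) (fun _ => 0) (D ∪ K) :=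
    h2 n (jac F) (fun _ => 0) (D ∪ K) O hop hcn.isPreconnected (h1 n F (D ∪ K) hop hF)
      (differentiableOn_const 0) hO hOU hOne (fun z hz => hz0 z hz)
  obtain ⟨z, hz, hne⟩ :=
    h4 n D f hH.open_D hH.conn_D hf D hH.open_D subset_rfl hH.conn_D.nonempty
  apply hne
  have h6 : F =ᶠ[𝓝 z] f := by
    filter_upwards [hH.open_D.mem_nhds hz] with y hy using hEq hy
  have h7 : jac f z = jac F z := by
    unfold jac
    rw [h6.fderiv_eq]
  rw [h7]
  exact h5 (Or.inl hz)

end Pool.PHS
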